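import Mathlib
import Pool.Agent.TH419.FS.GPow
import Pool.Agent.H429R2.Auto

/-!
# Every word in every long window of most rows

Let `x` be a finite nonzero configuration. Among any `M` consecutive times `n` (the position of the
times is arbitrary) all but `δ M` are such that every word of length `L` occurs in every window of
`ε n` consecutive cells of the part `(-n log_6 (3/2), n)` of the row `F^n x`.
-/

set_option autoImplicit false

namespace Pool.Agent.Results.MP_cc0c1a_nt.EveryLongWindowRows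

open Pool.Agent.TH419.FS Pool.Agent.H705R2 Pool.Agent.W765.KB
open Pool.Agent.H429R2.Auto (Conf F Rep letter rep_iter digits_sum sum_lt exists_rep)

/-- The configuration `x` shows the word `w` at the cells `p, p + 1, …, p + |w| - 1`. -/
def ShowsAt (x : ℤ → Fin 6) (w : List (Fin 6)) (p : ℤ) : Prop :=
  ∀ (i : ℕ) (h : i < w.length), x (p + i) = w[i]

/-- the number coding the word -/
def code (w : List (Fin 6)) : ℕ :=
  ∑ r ∈ Finset.range w.length, ((w.getD (w.length - 1 - r) 0 : Fin 6) : ℕ) * 6 ^ r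

theorem code_lt (w : List (Fin 6)) : code w < 6 ^ w.length :=
  sum_lt w.length fun r => w.getD (w.length - 1 - r) 0

theorem shows_of {x : Conf} {β : ℝ} (hβ : 0 ≤ β) (hx : Rep x β) (w : List (Fin 6)) (j : ℤ) (n : ℕ)
    (h : ⌊(6 : ℝ) ^ (j + w.length - 1) * ((3 / 2) ^ n * β)⌋₊ % 6 ^ w.length = code w) :
    ShowsAt (F^[n] x) w j := by
  intro i hi
  have h1 := letter (rep_iter hβ hx n) j w.length (w.length - 1 - i) (by omega)
  rw [h] at h1
  have h2 := digits_sum w.length (fun r => w.getD (w.length - 1 - r) 0) (w.length - 1 - i) (by omega)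
  have e1 : j + (w.length : ℤ) - 1 - ((w.length - 1 - i : ℕ) : ℤ) = j + i := by omega
  rw [e1] at h1
  have e2 : w.length - 1 - (w.length - 1 - i) = i := by omega
  unfold code at h1
  rw [h2] at h1
  simp only [e2] at h1
  have h3 : w.getD i 0 = w[i] := by
    rw [List.getD_eq_getElem?_getD, List.getElem?_eq_getElem hi]; rfl
  rw [h3] at h1
  exact Fin.ext h1

theorem ind : MulIndep 6 9 := by
  intro m n hmn
  have h1 : m = 0 := by
    by_contra hm
    have h2 : 2 ∣ 6 ^ m := dvd_pow (by norm_num) hm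
    rw [hmn] at h2
    have h3 := (Nat.Prime.dvd_of_dvd_pow Nat.prime_two h2)
    omega
  rw [h1, pow_zero] at hmn
  refine ⟨h1, ?_⟩
  by_contra hn
  exact absurd hmn.symm (Nat.one_lt_pow hn (by norm_num)).ne'

theorem dioph {m : ℕ} (hm : 1 ≤ m) : DiophPow 6 9 m := by
  intro n0 hn0 η hη
  obtain ⟨κ, hκ, hR⟩ := ridout_pow (b := 2) (c := 3) (by norm_num) (by norm_num) (by norm_num)
    (n0 * m) (Nat.one_le_iff_ne_zero.2 (by positivity)) η hη
  refine ⟨κ, hκ, n0 * m, fun K i hK hKi => ?_⟩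
  have hK2 : K ≤ 2 * i := by
    by_contra hcon
    have h1 : (9 : ℝ) ^ i < 6 ^ K := by
      calc (9 : ℝ) ^ i = 3 ^ (2 * i) := by rw [pow_mul]; norm_num
        _ ≤ 3 ^ K := pow_le_pow_right₀ (by norm_num) (by omega)
        _ < 6 ^ K := pow_lt_pow_left₀ (by norm_num) (by norm_num) (by omega)
    push_cast at hKi
    linarith
  obtain ⟨r, hr⟩ : ∃ r, 2 * i = K + r := ⟨2 * i - K, by omega⟩
  have h9 : (9 : ℝ) ^ i = 3 ^ K * 3 ^ r := by
    rw [← pow_add, ← hr, pow_mul]; norm_num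
  have h6 : (6 : ℝ) ^ K = 2 ^ K * 3 ^ K := by rw [← mul_pow]; norm_num
  have h3K : (0 : ℝ) < 3 ^ K := by positivity
  have hle : (2 : ℝ) ^ K ≤ 3 ^ r := by
    push_cast at hKi
    rw [h9, h6, mul_comm] at hKi
    exact le_of_mul_le_mul_left hKi h3K
  have hval : (n0 * ((9 : ℕ) : ℝ) ^ i * (m / ((6 : ℕ) : ℝ) ^ K) : ℝ) =
      ((n0 * m : ℕ) : ℝ) * (((3 : ℕ) : ℝ)) ^ r / (((2 : ℕ) : ℝ)) ^ K := by
    push_cast
    rw [h9, h6]
    field_simp
  set z : ℤ := round (((n0 * m : ℕ) : ℝ) * (((3 : ℕ) : ℝ)) ^ r / (((2 : ℕ) : ℝ)) ^ K) with hz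
  have hne : ((n0 * m : ℕ) : ℤ) * (3 : ℕ) ^ r ≠ z * (2 : ℕ) ^ K := by
    intro heq
    have hdvd : ((2 ^ K : ℕ) : ℤ) ∣ ((n0 * m * 3 ^ r : ℕ) : ℤ) :=
      ⟨z, by push_cast at heq ⊢; rw [heq]; ring⟩
    have hdvd' : 2 ^ K ∣ n0 * m * 3 ^ r := by exact_mod_cast hdvd
    have h2 : 2 ^ K ∣ n0 * m :=
      (Nat.Coprime.pow K r (by norm_num : Nat.Coprime 2 3)).dvd_of_dvd_mul_right hdvd'
    have h3 := Nat.le_of_dvd (by positivity) h2
    have h4 : K < 2 ^ K := Nat.lt_two_pow_self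
    omega
  have h1 := hR K r z (by push_cast; exact hle) (by exact_mod_cast hne)
  have hnorm : ‖((n0 * ((9 : ℕ) : ℝ) ^ i * (m / ((6 : ℕ) : ℝ) ^ K) : ℝ) : UnitAddCircle)‖ =
      |((n0 * m : ℕ) : ℝ) * (((3 : ℕ) : ℝ)) ^ r / (((2 : ℕ) : ℝ)) ^ K - z| := by
    rw [UnitAddCircle.norm_eq, hval]
  refine h1.trans ?_
  have h39 : (((3 : ℕ) : ℝ) ^ r) ^ η ≤ (((9 : ℕ) : ℝ) ^ i) ^ η := by
    refine Real.rpow_le_rpow (by positivity) ?_ hη.le
    push_cast
    rw [h9]
    have : (1 : ℝ) ≤ 3 ^ K := one_le_pow₀ (by norm_num)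
    nlinarith [(by positivity : (0 : ℝ) < 3 ^ r)]
  calc _ ≤ (((9 : ℕ) : ℝ) ^ i) ^ η * |((n0 * m : ℕ) : ℝ) * (((3 : ℕ) : ℝ)) ^ r / (((2 : ℕ) : ℝ)) ^ K - z| :=
        mul_le_mul_of_nonneg_right h39 (abs_nonneg _)
    _ = _ := by rw [← hnorm]

open Classical in
/-- Let `x` be a finite nonzero configuration, `L` a natural number and `ε, δ > 0`. There is an `M₀`
such that for all `s` and all `M ≥ M₀`: for all but at most `δ M` of the times `n` with
`s ≤ n < s + M`, every word of length `L` occurs in the row `F^n x` in every window of length `ε n`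
inside `[-n log_6 (3/2), n]`: for every integer `A` with `-n log_6 (3/2) ≤ A` and `A + ε n ≤ n` and
every word `w` of length `L` there is a cell `p` with `A ≤ p`, `p + L ≤ A + ε n` such that
`F^n x` shows `w` at `p, …, p + L - 1`. -/
theorem result (x : ℤ → Fin 6) (hfin : {i | x i ≠ 0}.Finite) (hx : ∃ i, x i ≠ 0) (L : ℕ)
    (ε δ : ℝ) (hε : 0 < ε) (hδ : 0 < δ) :
    ∃ M₀ : ℕ, ∀ s M : ℕ, M₀ ≤ M →
      (((Finset.Ico s (s + M)).filter (fun n : ℕ => ¬ ∀ A : ℤ,
        -((n : ℝ) * (Real.log (3 / 2) / Real.log 6)) ≤ A → A + ε * n ≤ n →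
          ∀ w : List (Fin 6), w.length = L →
            ∃ p : ℤ, A ≤ p ∧ (p : ℝ) + L ≤ A + ε * n ∧ ShowsAt (F^[n] x) w p)).card : ℝ) ≤
        δ * M := by
  obtain ⟨m, k, hrep, hm, -⟩ := exists_rep (x := x) hfin
  have hm : 0 < m := hm (by
    rintro rfl
    obtain ⟨i, hi⟩ := hx
    exact hi rfl)
  have hβ : (0 : ℝ) ≤ (m : ℝ) / 6 ^ k := by positivity
  obtain ⟨M₁, hM₁⟩ := gpow_unif (b := 6) (c := 9) (by norm_num) (by norm_num) ind (dioph hm)
    (δ := δ / 2) (by positivity) (ε := ε / 2) (by positivity) L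
  -- small times
  set n1 : ℕ := ⌈(k + 2) / (ε / 2)⌉₊ with hn1
  have hn1' : (k : ℝ) + 2 ≤ ε / 2 * n1 := by
    have h1 := Nat.le_ceil ((k + 2) / (ε / 2))
    rw [div_le_iff₀ (by positivity)] at h1
    rw [hn1, mul_comm]
    exact h1
  obtain ⟨M₂, hM₂⟩ := exists_nat_ge ((n1 : ℝ) / (δ / 2))
  refine ⟨max M₁ M₂, fun s M hM => ?_⟩
  have hl6 : 0 < Real.log 6 := Real.log_pos (by norm_num)
  have hlog : Real.log ((9 : ℕ) : ℝ) / Real.log ((6 : ℕ) : ℝ) =
      1 + Real.log (3 / 2) / Real.log 6 := by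
    have h1 : Real.log 9 = Real.log 6 + Real.log (3 / 2) := by
      rw [← Real.log_mul (by norm_num) (by norm_num)]; norm_num
    push_cast
    rw [h1]
    field_simp
  have hsub : (Finset.Ico s (s + M)).filter (fun n : ℕ => ¬ ∀ A : ℤ,
        -((n : ℝ) * (Real.log (3 / 2) / Real.log 6)) ≤ A → A + ε * n ≤ n →
          ∀ w : List (Fin 6), w.length = L →
            ∃ p : ℤ, A ≤ p ∧ (p : ℝ) + L ≤ A + ε * n ∧ ShowsAt (F^[n] x) w p) ⊆
      Finset.range n1 ∪ ((Finset.range M).filter (fun i : ℕ => ¬ ∀ N : ℕ,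
          (N : ℝ) + ε / 2 * (s + i) ≤ (s + i) * (Real.log (9 : ℕ) / Real.log (6 : ℕ)) →
            AllWords 6 L (9 ^ (s + i) * m) N (N + ε / 2 * (s + i)))).image
        (fun i => s + i) := by
    intro n hn
    rw [Finset.mem_filter, Finset.mem_Ico] at hn
    rw [Finset.mem_union, or_iff_not_imp_left]
    intro hn1n
    rw [Finset.mem_range, not_lt] at hn1n
    rw [Finset.mem_image]
    refine ⟨n - s, Finset.mem_filter.2 ⟨Finset.mem_range.2 (by omega), ?_⟩, by omega⟩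
    have e1 : s + (n - s) = n := by omega
    have e2 : (s : ℝ) + ((n - s : ℕ) : ℝ) = n := by
      rw [← Nat.cast_add, e1]
    rw [e2, e1]
    intro hall
    refine hn.2 fun A hA1 hA2 w hw => ?_
    have hn1R : (n1 : ℝ) ≤ n := by exact_mod_cast hn1n
    have hbig : (k : ℝ) + 2 ≤ ε / 2 * n := hn1'.trans (by gcongr)
    -- the window of places
    set X : ℝ := n + k + 1 - A - ε * n with hX
    have hk0 : (0 : ℝ) ≤ k := Nat.cast_nonneg _
    have hX0 : 0 ≤ X := by rw [hX]; linarith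
    set N : ℕ := ⌈X⌉₊ with hN
    have hN1 : X ≤ N := Nat.le_ceil X
    have hN2 : (N : ℝ) < X + 1 := Nat.ceil_lt_add_one hX0
    have hW : (N : ℝ) + ε / 2 * n ≤ n * (Real.log (9 : ℕ) / Real.log (6 : ℕ)) := by
      rw [hlog]
      have : (n : ℝ) * (1 + Real.log (3 / 2) / Real.log 6) =
        n + n * (Real.log (3 / 2) / Real.log 6) := by ring
      rw [this]
      linarith
    obtain ⟨ν, hν1, hν2, hν3⟩ := hall N hW (code w) (hw ▸ code_lt w)
    refine ⟨n + k - ν - L + 1, ?_, ?_, ?_⟩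
    · have : (A : ℝ) ≤ ((n + k - ν - L + 1 : ℤ) : ℝ) := by
        push_cast
        linarith
      exact_mod_cast this
    · push_cast
      linarith
    · apply shows_of hβ hrep
      have e3 : (6 : ℝ) ^ ((n : ℤ) + k - ν - L + 1 + w.length - 1) * ((3 / 2) ^ n * (m / 6 ^ k)) =
          ((9 ^ n * m : ℕ) : ℝ) / ((6 ^ ν : ℕ) : ℝ) := by
        rw [hw, show ((n : ℤ) + k - ν - L + 1 + L - 1) = ((n + k : ℕ) : ℤ) - (ν : ℕ) by push_cast; ring,
          zpow_sub₀ (by norm_num), zpow_natCast, zpow_natCast]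
        push_cast
        have h9 : (9 : ℝ) ^ n = 6 ^ n * (3 / 2) ^ n := by rw [← mul_pow]; norm_num
        rw [h9, pow_add]
        field_simp
      rw [e3, Nat.floor_div_eq_div, hw]
      exact hν3
  refine le_trans (Nat.cast_le.2 (Finset.card_le_card hsub)) ?_
  refine le_trans (Nat.cast_le.2 (Finset.card_union_le _ _)) ?_
  rw [Nat.cast_add, Finset.card_range]
  have h1 := hM₁ s M ((le_max_left _ _).trans hM)
  have h2 : (M₂ : ℝ) ≤ M := by exact_mod_cast (le_max_right M₁ M₂).trans hM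
  have h3 := hM₂.trans h2
  rw [div_le_iff₀ (by positivity)] at h3
  have h4 : ((((Finset.range M).filter (fun i : ℕ => ¬ ∀ N : ℕ,
          (N : ℝ) + ε / 2 * (s + i) ≤ (s + i) * (Real.log (9 : ℕ) / Real.log (6 : ℕ)) →
            AllWords 6 L (9 ^ (s + i) * m) N (N + ε / 2 * (s + i)))).image
        (fun i => s + i)).card : ℝ) ≤ δ / 2 * M :=
    le_trans (Nat.cast_le.2 Finset.card_image_le) h1
  linarith

end Pool.Agent.Results.MP_cc0c1a_nt.EveryLongWindowRows
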