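import Mathlib
import Pool.Agent.H429R2.Auto
import Pool.Agent.TH869.RB.Fin

set_option autoImplicit false

/-!
# MP_cc0c1a_nt: a power saving along polynomial progressions

`F` is the base-6 automaton of multiplication by 3/2 and `Rep x β` says that the configuration `x` is
the base-6 expansion of the real number `β ≥ 0` (files `Pool/Agent/H429R2/Auto.lean`). For every `d`
there is `A` such that for all `L`, all finite sets `J` of positions, all nonconstant real polynomials
`P` of degree at most `d` and all `N ≥ 1`: for all but at most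
`|J| * 16 * 6 ^ L * N ^ (1 - 1 / (A (L + 1) 6 ^ L))` of the `l < N`, the orbit of the configuration
representing `P(l)` shows every word of length at most `L` at every position of `J`, infinitely often.

In particular all positions `j` with `|j| ≤ N ^ c` are allowed at the same time, for some
`c = c(d, L) > 0`, with at most `N ^ (1 - c)` exceptions (for large `N`).

Proof: (good places) for `θ ≠ 0` there are arbitrarily large `s` such that no `u θ (3/2)^s`, `u ≤ U`,
is within `τ` of an integer, as soon as `5 U τ ≤ 1`: two consecutive bad places `t/u`, `w/v` satisfy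
`w/v = (3/2) (t/u)` exactly, and a long run of them is impossible because of the denominators. Then a
product of `I ~ c log N` majorants at the places `s, s + T, …, s + (I-1) T` and Weyl's inequality.
-/

namespace Pool.Agent.Results.MP_cc0c1a_nt.PowerSavingProgressions

open Pool.Agent.H429R2.Auto Filter Polynomial

/-- The configuration `x` shows the word `w` starting at position `j`. -/
def Shows (x : Conf) (w : List (Fin 6)) (j : ℤ) : Prop :=
  ∀ (i : ℕ) (h : i < w.length), x (j + i) = w[i]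

/-- the number coding the word -/
def code (w : List (Fin 6)) : ℕ :=
  ∑ r ∈ Finset.range w.length, ((w.getD (w.length - 1 - r) 0 : Fin 6) : ℕ) * 6 ^ r

theorem code_lt (w : List (Fin 6)) : code w < 6 ^ w.length :=
  sum_lt w.length fun r => w.getD (w.length - 1 - r) 0

theorem shows_of {x : Conf} {β : ℝ} (hβ : 0 ≤ β) (hx : Rep x β) (w : List (Fin 6)) (j : ℤ) (n : ℕ)
    (h : ⌊(6 : ℝ) ^ (j + w.length - 1) * ((3 / 2) ^ n * β)⌋₊ % 6 ^ w.length = code w) :
    Shows (F^[n] x) w j := by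
  intro i hi
  have h1 := letter (rep_iter hβ hx n) j w.length (w.length - 1 - i) (by omega)
  rw [h] at h1
  have h2 := digits_sum w.length (fun r => w.getD (w.length - 1 - r) 0) (w.length - 1 - i) (by omega)
  have e1 : j + (w.length : ℤ) - 1 - ((w.length - 1 - i : ℕ) : ℤ) = j + i := by omega
  rw [e1] at h1
  have e2 : w.length - 1 - (w.length - 1 - i) = i := by omega
  unfold code at h1
  rw [h2] at h1
  simp only [e2] at h1
  have h3 : w.getD i 0 = w[i] := by
    rw [List.getD_eq_getElem?_getD, List.getElem?_eq_getElem hi]; rfl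
  rw [h3] at h1
  exact Fin.ext h1

/-- a value near the centre of the interval of the word shows the word -/
theorem shows_near {x : Conf} {β : ℝ} (hβ : 0 ≤ β) (hx : Rep x β) (w : List (Fin 6)) (j : ℤ) (n : ℕ)
    (ε : ℝ) (hε : (6 : ℝ) ^ w.length * ε ≤ 1 / 4)
    (h : |((3 / 2 : ℝ) ^ n * ((6 : ℝ) ^ (j - 1) * β) - ((code w : ℝ) + 1 / 2) / 6 ^ w.length)
      - round ((3 / 2 : ℝ) ^ n * ((6 : ℝ) ^ (j - 1) * β) - ((code w : ℝ) + 1 / 2) / 6 ^ w.length)|
        < ε) :
    Shows (F^[n] x) w j := by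
  apply shows_of hβ hx
  set z : ℤ := round ((3 / 2 : ℝ) ^ n * ((6 : ℝ) ^ (j - 1) * β)
    - ((code w : ℝ) + 1 / 2) / 6 ^ w.length) with hz
  set A : ℝ := (6 : ℝ) ^ w.length with hA
  have hA0 : 0 < A := by positivity
  set V : ℝ := (6 : ℝ) ^ (j + w.length - 1) * ((3 / 2) ^ n * β) with hV
  have hV0 : 0 ≤ V := by positivity
  have hVe : (3 / 2 : ℝ) ^ n * ((6 : ℝ) ^ (j - 1) * β) = V / A := by
    rw [hV, hA, show j + (w.length : ℤ) - 1 = (j - 1) + (w.length : ℤ) by ring,
      zpow_add₀ (by norm_num), zpow_natCast]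
    field_simp
  rw [hVe] at h
  have h1 : |V - (A * z + code w + 1 / 2)| < 1 / 4 := by
    have e : V - (A * z + code w + 1 / 2) = A * (V / A - ((code w : ℝ) + 1 / 2) / A - z) := by
      field_simp
      ring
    rw [e, abs_mul, abs_of_pos hA0]
    calc _ < A * ε := mul_lt_mul_of_pos_left h hA0
      _ ≤ 1 / 4 := hε
  obtain ⟨c1, c2⟩ := abs_lt.1 h1
  have hAn : A = ((6 ^ w.length : ℕ) : ℝ) := by rw [hA]; push_cast; rfl
  have hc := code_lt w
  have hz0 : 0 ≤ z := by
    by_contra hneg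
    push Not at hneg
    have h2 : (z : ℝ) ≤ -1 := by exact_mod_cast (by omega : z ≤ -1)
    have h3 : (code w : ℝ) + 1 ≤ A := by rw [hAn]; exact_mod_cast hc
    nlinarith
  obtain ⟨y, hy⟩ := Int.eq_ofNat_of_zero_le hz0
  have hzy : (z : ℝ) = y := by rw [hy]; simp
  have hfl : ⌊V⌋₊ = 6 ^ w.length * y + code w := by
    rw [Nat.floor_eq_iff hV0]
    push_cast
    rw [hzy] at c1 c2
    constructor <;> linarith
  rw [hfl, Nat.mul_add_mod, Nat.mod_eq_of_lt hc]

open Classical in
/-- For every `d` there is `A` such that for all `L`, all finite sets `J` of positions, all nonconstant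
real polynomials `P` of degree at most `d` and all `N ≥ 1`, all but at most
`|J| * 16 * 6 ^ L * N ^ (1 - 1 / (A (L + 1) 6 ^ L))` of the `l < N` have the following property: the
orbit of the configuration representing `P(l)` shows every word of length at most `L` at every position
of `J` infinitely often. -/
theorem result (d : ℕ) : ∃ A : ℕ, 1 ≤ A ∧ ∀ (L : ℕ) (J : Finset ℤ) (P : ℝ[X]),
    1 ≤ P.natDegree → P.natDegree ≤ d → ∀ N : ℕ, 1 ≤ N →
      (((Finset.range N).filter (fun l : ℕ => ∃ x : Conf, 0 ≤ P.eval (l : ℝ) ∧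
        Rep x (P.eval (l : ℝ)) ∧ ∃ j ∈ J, ∃ w : List (Fin 6), w.length ≤ L ∧
          ¬ ∃ᶠ n : ℕ in atTop, Shows (F^[n] x) w j)).card : ℝ) ≤
        J.card * (16 * 6 ^ L * (N : ℝ) ^ (1 - 1 / (A * (L + 1) * (6 : ℝ) ^ L))) := by
  obtain ⟨A, hA1, hA⟩ := Pool.Agent.TH869.RB.all 3 2 (by norm_num) (by norm_num) (by norm_num) d
  refine ⟨8 * A, by omega, fun L J P h1 h2 N hN => ?_⟩
  have hAr : (0:ℝ) < A := by exact_mod_cast hA1
  have hN1 : (1:ℝ) ≤ N := by exact_mod_cast hN
  have hN0 : (0:ℝ) < N := by linarith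
  set ε : ℝ := 1 / (4 * 6 ^ L) with hε
  have hε0 : 0 < ε := by positivity
  have h6L : (1:ℝ) ≤ 6 ^ L := one_le_pow₀ (by norm_num)
  have hε2 : ε ≤ 1 / 2 := by
    rw [hε, div_le_div_iff₀ (by positivity) (by norm_num)]
    linarith
  set Bad : ℤ → Finset ℕ := fun j => (Finset.range N).filter (fun l : ℕ =>
    Pool.Agent.TH869.RB.Miss (((3:ℕ) : ℝ) / (2:ℕ)) ε ((C ((6 : ℝ) ^ (j - 1)) * P).eval (l : ℝ)))
    with hBad
  have hlog : Real.log (1/ε) ≤ 2 * (L + 1) := by
    rw [hε, one_div_one_div, Real.log_mul (by norm_num) (by positivity), Real.log_pow]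
    have h3 : Real.log 4 ≤ 2 := by
      have : Real.log 4 = 2 * Real.log 2 := by
        rw [show (4:ℝ) = 2 ^ 2 by norm_num, Real.log_pow]; push_cast; ring
      rw [this]
      have := Real.log_two_lt_d9
      linarith
    have h4 : Real.log 6 ≤ 2 := by
      have h5 : Real.log 6 ≤ Real.log (2.7 ^ 2) := Real.log_le_log (by norm_num) (by norm_num)
      have h6 : Real.log (2.7 ^ 2) = 2 * Real.log 2.7 := by rw [Real.log_pow]; push_cast; ring
      have h7 : Real.log 2.7 ≤ 1 := by
        rw [Real.log_le_iff_le_exp (by norm_num)]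
        have := Real.exp_one_gt_d9
        linarith
      linarith
    have hL0 : (0:ℝ) ≤ L := Nat.cast_nonneg L
    nlinarith
  have hlog0 : 0 < Real.log (1/ε) := by
    have := Pool.Agent.TH869.LPS.log_pos_of ε hε0 hε2
    linarith
  have hexp : (N:ℝ) * (N:ℝ) ^ (-(ε / (A * Real.log (1/ε)))) ≤
      (N : ℝ) ^ (1 - 1 / (((8 * A : ℕ) : ℝ) * (L + 1) * (6 : ℝ) ^ L)) := by
    have h3 : (N:ℝ) * (N:ℝ) ^ (-(ε / (A * Real.log (1/ε)))) =
        (N:ℝ) ^ (1 + -(ε / (A * Real.log (1/ε)))) := by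
      rw [Real.rpow_add hN0, Real.rpow_one]
    rw [h3]
    apply Real.rpow_le_rpow_of_exponent_le hN1
    have h4 : 1 / (((8 * A : ℕ) : ℝ) * (L + 1) * (6 : ℝ) ^ L) ≤ ε / (A * Real.log (1/ε)) := by
      calc 1 / (((8 * A : ℕ) : ℝ) * (L + 1) * (6 : ℝ) ^ L) = ε / (A * (2 * (L + 1))) := by
            rw [hε]; push_cast; field_simp; norm_num
        _ ≤ _ := by gcongr
    linarith
  have hcard : ∀ j, ((Bad j).card : ℝ) ≤
      16 * 6 ^ L * (N : ℝ) ^ (1 - 1 / (((8 * A : ℕ) : ℝ) * (L + 1) * (6 : ℝ) ^ L)) := by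
    intro j
    have hdeg : (C ((6 : ℝ) ^ (j - 1)) * P).natDegree = P.natDegree :=
      natDegree_C_mul (by positivity)
    have h3 := hA ε hε0 hε2 (C ((6 : ℝ) ^ (j - 1)) * P) (by rw [hdeg]; exact h1)
      (by rw [hdeg]; exact h2) N hN (Bad j) (Finset.filter_subset _ _)
      (fun l hl => (Finset.mem_filter.1 hl).2)
    refine h3.trans ?_
    have h4 : 4 / ε = 16 * 6 ^ L := by rw [hε]; field_simp; norm_num
    rw [h4, mul_assoc]
    gcongr
  have hsub : (Finset.range N).filter (fun l : ℕ => ∃ x : Conf, 0 ≤ P.eval (l : ℝ) ∧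
        Rep x (P.eval (l : ℝ)) ∧ ∃ j ∈ J, ∃ w : List (Fin 6), w.length ≤ L ∧
          ¬ ∃ᶠ n : ℕ in atTop, Shows (F^[n] x) w j) ⊆ J.biUnion Bad := by
    intro l hl
    obtain ⟨hl1, x, hx0, hx, j, hj, w, hw, hn⟩ := Finset.mem_filter.1 hl
    rw [Finset.mem_biUnion]
    refine ⟨j, hj, Finset.mem_filter.2 ⟨hl1, ?_⟩⟩
    rw [Filter.not_frequently, eventually_atTop] at hn
    obtain ⟨n₀, hn₀⟩ := hn
    refine ⟨((code w : ℝ) + 1 / 2) / 6 ^ w.length, n₀, fun n hn2 k => ?_⟩
    by_contra hcon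
    push Not at hcon
    apply hn₀ n hn2
    refine shows_near hx0 hx w j n ε ?_ ?_
    · rw [hε]
      have h6 : (6 : ℝ) ^ w.length ≤ 6 ^ L := pow_le_pow_right₀ (by norm_num) hw
      rw [mul_one_div, div_le_iff₀ (by positivity)]
      linarith
    · rw [eval_mul, eval_C] at hcon
      refine lt_of_le_of_lt (round_le _ k) ?_
      norm_num at hcon ⊢
      exact hcon
  calc _ ≤ ((J.biUnion Bad).card : ℝ) := by exact_mod_cast Finset.card_le_card hsub
    _ ≤ ((∑ j ∈ J, (Bad j).card : ℕ) : ℝ) := by exact_mod_cast Finset.card_biUnion_le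
    _ = ∑ j ∈ J, ((Bad j).card : ℝ) := by push_cast; rfl
    _ ≤ ∑ _j ∈ J, _ := Finset.sum_le_sum fun j _ => hcard j
    _ = _ := by rw [Finset.sum_const, nsmul_eq_mul]

end Pool.Agent.Results.MP_cc0c1a_nt.PowerSavingProgressions
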